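import Pool.Agent.N964.GV.Stm

set_option autoImplicit false

/-!
# Project GV, part C (helper645): the block bound
-/

namespace Pool.Agent.N645.GV

open Complex MeasureTheory Filter
open Pool.Agent.N964.MX (Dd Pl cc mem_Pl Dd_nonneg Dd_le ell_ge Lg_mono first_good2)
open Pool.Agent.N964.GX (PA al)
open Pool.Agent.N964.GV
open Pool.Agent.Y23 (Lg)

/-- the bound at the level `V` -/
noncomputable def GG (k : ℕ) (E τ δ : ℝ) (V : ℕ) : ℝ :=
  Real.exp (k * V * Real.log (1 + V / (τ * δ)) + V + E)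

/-- the bound with the polynomial at a level -/
lemma lvl {k : ℕ} {κ C : ℝ} {F : ℂ → ℂ} {a : ℕ → ℂ} (D : DatK k κ C F a) {T δ t : ℝ} (hT : 5 * C ≤ T)
    (hδ : 0 < δ) (hδ4 : δ ≤ 1 / 4) (h1 : T / 2 ≤ t) (h2 : t ≤ T) {V : ℕ} (hV : 32 ≤ V)
    (hVt : (V : ℝ) ≤ Lg T) (hτ : Real.log (Lg T) ≤ (k + 2) * Real.log (1 / δ)) :
    ‖F (1 / 2 + δ + t * I)‖⁻¹ ≤ Real.exp (k * V * Real.log (1 + V / (Lg T * δ)) +
      (k + 5) * C * Real.log (1 / δ) + ‖PA a (Lg T / V) δ t‖) := by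
  have hC := D.pos
  set τ := Lg T with hτd
  have hV32 : (32 : ℝ) ≤ V := by exact_mod_cast hV
  have hV0 : (0 : ℝ) < V := by linarith
  have hτ0 : 0 < τ := hV0.trans_le hVt
  have hl1 : 1 ≤ τ / V := by rw [le_div_iff₀ hV0]; linarith
  have hℓ := ell_ge hδ hδ4
  have hT0 : 0 < T := by linarith
  have hLt : Lg t ≤ τ := Lg_mono (by rw [abs_of_nonneg (by linarith)]; exact h2)
  have hexp : Real.exp (8 * (τ / V)) ≤ t := by
    have h3 : 8 * (τ / V) ≤ τ / 4 := by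
      rw [← mul_div_assoc, div_le_div_iff₀ hV0 (by norm_num)]
      nlinarith
    refine (Real.exp_le_exp.2 h3).trans ?_
    have h4 : Real.exp (τ / 4) ^ 4 = 3 + T := by
      rw [← Real.exp_nat_mul]
      have : ((4 : ℕ) : ℝ) * (τ / 4) = τ := by push_cast; ring
      rw [this, hτd]
      unfold Lg
      rw [Real.exp_log (by positivity), abs_of_nonneg hT0.le]
    have ht : 5 ≤ T / 2 := by linarith
    have h5 : 3 + T ≤ (T / 2) ^ 4 := by
      have h6 : 3 + T ≤ (T / 2) ^ 2 := by nlinarith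
      have h7 : 1 ≤ (T / 2) ^ 2 := by nlinarith
      nlinarith
    have h6 : Real.exp (τ / 4) ≤ T / 2 := by
      by_contra hcon
      rw [not_le] at hcon
      have h7 := pow_lt_pow_left₀ hcon (by linarith) (n := 4) (by norm_num)
      rw [h4] at h7
      linarith
    linarith
  have h3 := D.main t δ (τ / V) (by linarith) hδ (by linarith) hl1 hexp
  refine h3.trans ?_
  rw [Real.exp_le_exp]
  have eD : Dd (τ / V) δ = Real.log (1 + V / (τ * δ)) := by
    unfold Pool.Agent.N964.MX.Dd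
    congr 2
    field_simp
  have hD0 := Dd_nonneg (by linarith : 0 < τ / V) hδ
  have hD2 := Dd_le hl1 hδ hδ4
  have hlog : Real.log (τ / V) ≤ Real.log τ := by
    refine Real.log_le_log (by positivity) ?_
    rw [div_le_iff₀ hV0]
    nlinarith
  have h4 : k * Lg t / (τ / V) * Dd (τ / V) δ ≤ k * V * Real.log (1 + V / (τ * δ)) := by
    rw [← eD]
    refine mul_le_mul_of_nonneg_right ?_ hD0
    rw [div_le_iff₀ (by positivity)]
    have : (k : ℝ) * V * (τ / V) = k * τ := by field_simp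
    rw [this]
    exact mul_le_mul_of_nonneg_left hLt (Nat.cast_nonneg k)
  have h5 : C * (1 + Real.log (τ / V) + Dd (τ / V) δ) ≤ (k + 5) * C * Real.log (1 / δ) := by
    have : 1 + Real.log (τ / V) + Dd (τ / V) δ ≤ (k + 5) * Real.log (1 / δ) := by linarith
    calc C * (1 + Real.log (τ / V) + Dd (τ / V) δ) ≤ C * ((k + 5) * Real.log (1 / δ)) :=
          mul_le_mul_of_nonneg_left this (by linarith)
      _ = _ := by ring
  linarith

lemma PLy_cont (a : ℕ → ℂ) (l δ y : ℝ) : Continuous (fun t : ℝ => PLy a l δ y t) := by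
  unfold PLy
  refine continuous_finsetSum _ fun p hp => ?_
  rw [Finset.mem_filter, mem_Pl] at hp
  have hp0 : (p : ℂ) ≠ 0 := by exact_mod_cast hp.1.2.ne_zero
  refine Continuous.mul continuous_const ?_
  refine Continuous.const_cpow (by fun_prop) (Or.inl hp0)

/-- the integral of one term -/
lemma int_term {k : ℕ} {κ C : ℝ} {F : ℂ → ℂ} {a : ℕ → ℂ} (D : DatK k κ C F a) {B : ℝ} (hB : 1 ≤ B)
    (hv : ∀ l δ y : ℝ, 1 ≤ l → 0 < δ → δ ≤ 1 → 1 ≤ y →
      ∑ p ∈ (Pl l).filter (fun p : ℕ => y < p), ‖((cc l δ p : ℝ) : ℂ) * al a p‖ ^ 2 ≤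
        B * (1 + Dd l δ) ^ 2 * y ^ (-(2 * κ)))
    {T δ y : ℝ} (hT : 3 ≤ T) (hδ : 0 < δ) (hδ4 : δ ≤ 1 / 4) (hy : 1 ≤ y) {V : ℕ} (hV : 1 ≤ V)
    (hVt : (V : ℝ) ≤ Lg T) :
    ∫ t in (-(3 + T))..(3 + T), (‖PLy a (Lg T / V) δ y t‖ / V) ^ (2 * V) ≤
      C * (3 + T) * (9 * B * Real.log (1 / δ) ^ 2 * y ^ (-(2 * κ)) / V) ^ V := by
  have hC := D.pos
  set τ := Lg T with hτd
  set m := Real.log (1 / δ) with hm
  have hV0 : (0 : ℝ) < V := by exact_mod_cast hV
  have hV1 : (1 : ℝ) ≤ V := by exact_mod_cast hV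
  have hτ0 : 0 < τ := hV0.trans_le hVt
  have hl1 : 1 ≤ τ / V := by rw [le_div_iff₀ hV0]; linarith
  have hℓ : 1 ≤ m := ell_ge hδ hδ4
  set l := τ / V with hl
  have hexp : Real.exp τ = 3 + T := by
    rw [hτd]; unfold Lg
    rw [Real.exp_log (by positivity), abs_of_nonneg (by linarith : (0 : ℝ) ≤ T)]
  have hX : ((⌊Real.exp l⌋₊ : ℕ) : ℝ) ^ V ≤ 3 + T := by
    have h1 : ((⌊Real.exp l⌋₊ : ℕ) : ℝ) ≤ Real.exp l := Nat.floor_le (Real.exp_pos _).le
    calc ((⌊Real.exp l⌋₊ : ℕ) : ℝ) ^ V ≤ Real.exp l ^ V := pow_le_pow_left₀ (Nat.cast_nonneg _) h1 V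
      _ = Real.exp (V * l) := by rw [← Real.exp_nat_mul]
      _ = Real.exp τ := by
        congr 1
        rw [hl]
        field_simp
      _ = _ := hexp
  have h1 := D.mom ⌊Real.exp l⌋₊ V (fun p => if y < (p : ℝ) then ((cc l δ p : ℝ) : ℂ) * al a p else 0)
    (3 + T) (by linarith) hX
  have hD0 := Dd_nonneg (by linarith : 0 < l) hδ
  have hD2 : Dd l δ ≤ 2 * m := Dd_le hl1 hδ hδ4
  have h2 := hv l δ y hl1 hδ (by linarith) hy
  have hy0 : 0 < y := by linarith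
  have hyk : 0 < y ^ (-(2 * κ)) := Real.rpow_pos_of_pos hy0 _
  have h2' : ∑ p ∈ (Finset.range (⌊Real.exp l⌋₊ + 1)).filter Nat.Prime,
      ‖if y < (p : ℝ) then ((cc l δ p : ℝ) : ℂ) * al a p else 0‖ ^ 2 ≤ 9 * B * m ^ 2 * y ^ (-(2 * κ)) := by
    have e1 : ∑ p ∈ (Finset.range (⌊Real.exp l⌋₊ + 1)).filter Nat.Prime,
        ‖if y < (p : ℝ) then ((cc l δ p : ℝ) : ℂ) * al a p else 0‖ ^ 2 =
        ∑ p ∈ (Pl l).filter (fun p : ℕ => y < p), ‖((cc l δ p : ℝ) : ℂ) * al a p‖ ^ 2 := by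
      rw [Finset.sum_filter (s := Pl l)]
      refine Finset.sum_congr rfl fun p _ => ?_
      split_ifs
      · rfl
      · simp
    rw [e1]
    refine h2.trans ?_
    have h3 : (1 + Dd l δ) ^ 2 ≤ (3 * m) ^ 2 := pow_le_pow_left₀ (by linarith) (by linarith) 2
    calc B * (1 + Dd l δ) ^ 2 * y ^ (-(2 * κ)) ≤ B * (3 * m) ^ 2 * y ^ (-(2 * κ)) := by gcongr
      _ = _ := by ring
  have e1 : ∀ t : ℝ, (‖PLy a l δ y t‖ / V) ^ (2 * V) =
      (1 / (V : ℝ)) ^ (2 * V) * ‖∑ p ∈ (Finset.range (⌊Real.exp l⌋₊ + 1)).filter Nat.Prime,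
        (if y < (p : ℝ) then ((cc l δ p : ℝ) : ℂ) * al a p else 0) * (p : ℂ) ^ (-(t : ℂ) * I)‖ ^ (2 * V) := by
    intro t
    rw [div_eq_mul_one_div, mul_pow, mul_comm]
    congr 3
    unfold PLy
    rw [Finset.sum_filter (s := Pl l)]
    refine Finset.sum_congr rfl fun p _ => ?_
    split_ifs
    · rfl
    · rw [zero_mul]
  simp_rw [e1]
  rw [intervalIntegral.integral_const_mul]
  have hfac : (V.factorial : ℝ) ≤ (V : ℝ) ^ V := by exact_mod_cast Nat.factorial_le_pow V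
  have hS0 : 0 ≤ ∑ p ∈ (Finset.range (⌊Real.exp l⌋₊ + 1)).filter Nat.Prime,
      ‖if y < (p : ℝ) then ((cc l δ p : ℝ) : ℂ) * al a p else 0‖ ^ 2 :=
    Finset.sum_nonneg fun p _ => sq_nonneg _
  have hC0 : 0 ≤ C := by linarith
  have hT0 : 0 ≤ 3 + T := by linarith
  set S := ∑ p ∈ (Finset.range (⌊Real.exp l⌋₊ + 1)).filter Nat.Prime,
      ‖if y < (p : ℝ) then ((cc l δ p : ℝ) : ℂ) * al a p else 0‖ ^ 2 with hS
  calc (1 / (V : ℝ)) ^ (2 * V) * ∫ t in (-(3 + T))..(3 + T),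
        ‖∑ p ∈ (Finset.range (⌊Real.exp l⌋₊ + 1)).filter Nat.Prime,
        (if y < (p : ℝ) then ((cc l δ p : ℝ) : ℂ) * al a p else 0) * (p : ℂ) ^ (-(t : ℂ) * I)‖ ^ (2 * V) ≤
      (1 / (V : ℝ)) ^ (2 * V) * (C * (3 + T) * V.factorial * S ^ V) :=
        mul_le_mul_of_nonneg_left h1 (by positivity)
    _ ≤ (1 / (V : ℝ)) ^ (2 * V) * (C * (3 + T) * (V : ℝ) ^ V * (9 * B * m ^ 2 * y ^ (-(2 * κ))) ^ V) := by
        gcongr
    _ = C * (3 + T) * ((1 / (V : ℝ)) ^ 2 * (V * (9 * B * m ^ 2 * y ^ (-(2 * κ))))) ^ V := by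
        rw [mul_pow ((1 / (V : ℝ)) ^ 2), mul_pow (V : ℝ), ← pow_mul]; ring
    _ = _ := by
        congr 2
        field_simp

/-- the choice of `y` -/
lemma choice {k : ℕ} {κ δ τ : ℝ} (hκ0 : 0 < κ) (hκ1 : κ < 1 / 2) (hδ : 0 < δ)
    (hδ4 : δ ≤ 1 / 4) (hτ : (1 / δ) ^ (nu k κ) * Real.log (1 / δ) ^ 3 ≤ τ) :
    ∃ y : ℝ, 1 ≤ y ∧ (1 / δ) ^ k * Real.log (1 / δ) ^ 3 / τ ≤ y ^ (2 * κ) ∧
      y ^ (1 / 2 - κ) ≤ (1 / δ) ^ (nu k κ) := by
  set m := Real.log (1 / δ) with hm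
  have hm1 : 1 ≤ m := ell_ge hδ hδ4
  have hm3 : 0 < m ^ 3 := by positivity
  have hd : 0 < 1 / δ := by positivity
  have hd1 : 1 ≤ 1 / δ := by rw [le_div_iff₀ hδ]; linarith
  have hν : 0 ≤ nu k κ := by
    unfold nu
    have : (0 : ℝ) ≤ k := Nat.cast_nonneg k
    have h2 : 0 < 1 / 2 - κ := by linarith
    positivity
  have hA : 0 < (1 / δ) ^ (nu k κ) := Real.rpow_pos_of_pos hd _
  have hτ0 : 0 < τ := lt_of_lt_of_le (by positivity) hτ
  set z := (1 / δ) ^ k * m ^ 3 / τ with hz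
  have hz0 : 0 < z := by rw [hz]; positivity
  refine ⟨max 1 (z ^ (1 / (2 * κ))), le_max_left _ _, ?_, ?_⟩
  · calc z = (z ^ (1 / (2 * κ))) ^ (2 * κ) := by
          rw [← Real.rpow_mul hz0.le, one_div_mul_cancel (by positivity), Real.rpow_one]
      _ ≤ _ := Real.rpow_le_rpow (Real.rpow_nonneg hz0.le _) (le_max_right _ _) (by linarith)
  · rcases max_choice 1 (z ^ (1 / (2 * κ))) with h | h
    · rw [h, Real.one_rpow]
      exact Real.one_le_rpow hd1 hν
    · rw [h, ← Real.rpow_mul hz0.le]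
      have h1 : z ≤ (1 / δ) ^ ((k : ℝ) - nu k κ) := by
        rw [hz, Real.rpow_sub hd, Real.rpow_natCast, div_le_div_iff₀ hτ0 hA]
        calc (1 / δ) ^ k * m ^ 3 * (1 / δ) ^ (nu k κ) = (1 / δ) ^ k * ((1 / δ) ^ (nu k κ) * m ^ 3) := by
              ring
          _ ≤ (1 / δ) ^ k * τ := by gcongr
      have h0 : 0 ≤ 1 / (2 * κ) * (1 / 2 - κ) := by
        have h2 : 0 < 1 / 2 - κ := by linarith
        positivity
      refine (Real.rpow_le_rpow hz0.le h1 h0).trans (le_of_eq ?_)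
      rw [← Real.rpow_mul hd.le]
      congr 1
      unfold nu
      have h3 : (1 / 2 + κ) ≠ 0 := by positivity
      field_simp
      ring

lemma exp_two_le : Real.exp 2 ≤ 9 := by
  have h1 : Real.exp 2 = Real.exp 1 * Real.exp 1 := by rw [← Real.exp_add]; norm_num
  have h3 : Real.exp 1 ≤ 3 := by have := Real.exp_one_lt_d9; linarith
  rw [h1]
  calc Real.exp 1 * Real.exp 1 ≤ 3 * 3 := mul_le_mul h3 h3 (Real.exp_pos 1).le (by norm_num)
    _ = 9 := by norm_num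

lemma le_exp_two : 4 ≤ Real.exp 2 := by
  have h1 : Real.exp 2 = Real.exp 1 * Real.exp 1 := by rw [← Real.exp_add]; norm_num
  have h3 : 2 ≤ Real.exp 1 := by have := Real.exp_one_gt_d9; linarith
  rw [h1]
  calc (4 : ℝ) = 2 * 2 := by norm_num
    _ ≤ Real.exp 1 * Real.exp 1 := mul_le_mul h3 h3 (by norm_num) (Real.exp_pos 1).le

set_option maxHeartbeats 4000000 in
/-- **The block bound.** -/
theorem blk_of (h1 : S_var) (h2 : S_num) : S_blk := by
  intro k κ C F a D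
  have hC := D.pos
  have hk1 : (1 : ℝ) ≤ k := by exact_mod_cast D.hk
  have hκ0 := D.hκ0
  have hκ1 := D.hκ1
  obtain ⟨B, hB, hv⟩ := h1 k κ C F a D
  obtain ⟨C2, δ1, hC2, hδ10, hδ14, hn⟩ := h2 k κ (9 * B) D.hk hκ0 (by linarith)
  have hC0 : 0 < C := by linarith
  have hB0 : 0 < B := by linarith
  obtain ⟨K, hK⟩ : ∃ K : ℝ, K = 64 * (k : ℝ) + 34 + 2 * C + (k + 2) + ((k + 5) * C + 30 * B) + C2 + 1 :=
    ⟨_, rfl⟩
  have hK0 : 0 < K := by rw [hK]; positivity
  refine ⟨K, min δ1 (Real.exp (-4)), hK0, lt_min hδ10 (Real.exp_pos _), (min_le_left _ _).trans hδ14, ?_⟩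
  intro T δ hT hδ hδ0 hτ1 hτ2
  have hδ1 : δ ≤ δ1 := hδ0.trans (min_le_left _ _)
  have hδ4 : δ ≤ 1 / 4 := hδ1.trans hδ14
  obtain ⟨m, hm⟩ : ∃ m, m = Real.log (1 / δ) := ⟨_, rfl⟩
  have hmexp : Real.exp m = 1 / δ := by rw [hm, Real.exp_log (by positivity)]
  have hm4 : 4 ≤ m := by
    rw [hm, Real.le_log_iff_exp_le (by positivity), le_div_iff₀ hδ]
    calc Real.exp 4 * δ ≤ Real.exp 4 * Real.exp (-4) := by
          gcongr
          exact hδ0.trans (min_le_right _ _)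
      _ = 1 := by rw [← Real.exp_add]; norm_num
  obtain ⟨τ, hτd⟩ : ∃ τ, τ = Lg T := ⟨_, rfl⟩
  have hd : 0 < 1 / δ := by positivity
  have hd1 : 1 ≤ 1 / δ := by rw [le_div_iff₀ hδ]; linarith
  have hν0 : 0 ≤ nu k κ := by
    unfold nu
    have h2 : 0 < 1 / 2 - κ := by linarith
    positivity
  obtain ⟨P, hP⟩ : ∃ P, P = (1 / δ) ^ (nu k κ) := ⟨_, rfl⟩
  have hP1 : 1 ≤ P := by rw [hP]; exact Real.one_le_rpow hd1 hν0
  have hX3 : Xv (nu k κ) 3 δ = P * m ^ 3 := by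
    unfold Xv
    rw [hP, hm, ← Real.rpow_natCast _ 3]
    norm_num
  have hX4 : Xv (nu k κ) 4 δ = P * m ^ 4 := by
    unfold Xv
    rw [hP, hm, ← Real.rpow_natCast _ 4]
    norm_num
  rw [hX3, ← hτd] at hτ1
  rw [← hτd] at hτ2
  rw [hX4]
  have hm3 : (64 : ℝ) ≤ m ^ 3 := by
    calc (64 : ℝ) = 4 ^ 3 := by norm_num
      _ ≤ m ^ 3 := by gcongr
  have hτ64 : 64 ≤ τ := by
    have : m ^ 3 ≤ P * m ^ 3 := le_mul_of_one_le_left (by positivity) hP1
    linarith
  have hτ0 : 0 < τ := by linarith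
  have hτ3 : τ ≤ Real.exp ((k + 2) * m) := by
    refine hτ2.trans (le_of_eq ?_)
    have h1 : Real.exp ((k + 2) * m) = Real.exp m ^ (k + 2) := by
      rw [← Real.exp_nat_mul]; push_cast; rfl
    rw [h1, hmexp, one_div_pow]
  have hlτ3 : Real.log τ ≤ (k + 2) * m := by rw [Real.log_le_iff_le_exp hτ0]; exact hτ3
  obtain ⟨y, hy1, hy2, hy3⟩ := choice (k := k) (τ := τ) hκ0 hκ1 hδ hδ4 (by rw [← hP, ← hm]; exact hτ1)
  rw [← hP] at hy3
  have hm0 : 0 < m := by linarith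
  have hT15 : 15 ≤ T := by linarith
  obtain ⟨N, hN⟩ : ∃ N, N = ⌊τ⌋₊ := ⟨_, rfl⟩
  have hNτ : (N : ℝ) ≤ τ := by rw [hN]; exact Nat.floor_le hτ0.le
  have hNτ' : τ < N + 1 := by rw [hN]; exact Nat.lt_floor_add_one τ
  have hN32 : 32 ≤ N := by rw [hN]; exact Nat.le_floor (by push_cast; linarith)
  obtain ⟨n, hn'⟩ := Nat.exists_eq_add_of_le hN32
  obtain ⟨E, hE⟩ : ∃ E : ℝ, E = (k + 5) * C * m + 3 * B * m * P + 27 * B * m := ⟨_, rfl⟩
  have hl1 : ∀ V : ℕ, 1 ≤ V → (V : ℝ) ≤ τ → 1 ≤ τ / V := by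
    intro V hV hVt
    have hV0 : (0 : ℝ) < V := by exact_mod_cast hV
    rw [le_div_iff₀ hV0]
    linarith
  have hDd : ∀ V : ℕ, 1 ≤ V → (V : ℝ) ≤ τ → 0 ≤ 1 + Dd (τ / V) δ ∧ 1 + Dd (τ / V) δ ≤ 3 * m := by
    intro V hV hVt
    have h3 := hl1 V hV hVt
    have hD0 := Dd_nonneg (by linarith : 0 < τ / V) hδ
    have hD2 := Dd_le h3 hδ hδ4
    rw [← hm] at hD2
    exact ⟨by linarith, by linarith⟩
  have hyp : 0 ≤ y ^ (1 / 2 - κ) := Real.rpow_nonneg (by linarith) _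
  have hPA : ∀ (t : ℝ) (V : ℕ), 1 ≤ V → (V : ℝ) ≤ τ →
      ‖PA a (τ / V) δ t‖ ≤ ‖PLy a (τ / V) δ y t‖ + 3 * B * m * P := by
    intro t V hV hVt
    obtain ⟨h4, h5⟩ := hDd V hV hVt
    refine (hv (τ / V) δ y t (hl1 V hV hVt) hδ (by linarith) hy1).2.1.trans ?_
    have : B * (1 + Dd (τ / V) δ) * y ^ (1 / 2 - κ) ≤ B * (3 * m) * P := by gcongr
    linarith
  obtain ⟨Gd, hGd⟩ : ∃ Gd : ℝ → ℕ → Prop, Gd = fun t V => V = N ∨ ‖PLy a (τ / V) δ y t‖ ≤ V := ⟨_, rfl⟩
  obtain ⟨Bf, hBf⟩ : ∃ Bf : ℝ → ℕ → ℝ, Bf = fun (t : ℝ) (V : ℕ) => (‖PLy a (τ / V) δ y t‖ / V) ^ (2 * V) :=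
    ⟨_, rfl⟩
  have hBf0 : ∀ (t : ℝ) (V : ℕ), 0 ≤ Bf t V := by
    intro t V
    rw [hBf]
    positivity
  have hGG0 : ∀ V, 0 ≤ GG k E τ δ V := fun V => (Real.exp_pos _).le
  have hBcont : ∀ V : ℕ, Continuous (fun t : ℝ => Bf t V) := by
    intro V
    rw [hBf]
    exact (((PLy_cont _ _ _ _).norm).div_const _).pow _
  have hcont : ∀ j : ℕ, Continuous (fun t : ℝ => GG k E τ δ (32 + j + 1) * Bf t (32 + j)) :=
    fun j => continuous_const.mul (hBcont _)
  have he2 := exp_two_le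
  have he2' := le_exp_two
  refine ⟨fun t => GG k E τ δ 32 + ∑ j ∈ Finset.range n, GG k E τ δ (32 + j + 1) * Bf t (32 + j),
    continuous_const.add (continuous_finsetSum _ fun j _ => hcont j), fun t => ?_, fun t ht1 ht2 => ?_, ?_⟩
  · exact add_nonneg (hGG0 _) (Finset.sum_nonneg fun j _ => mul_nonneg (hGG0 _) (hBf0 _ _))
  · refine first_good2 (Gd t) (GG k E τ δ) (Bf t) _ 32 n hGG0 (hBf0 t) ?_ ?_ ?_
    · rw [hGd]
      exact Or.inl hn'.symm
    · intro V hV1 hV2 hbad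
      rw [hGd] at hbad
      push Not at hbad
      have hVpos : (0 : ℝ) < V := by
        have : 0 < V := by omega
        exact_mod_cast this
      rw [hBf]
      refine one_le_pow₀ ?_
      rw [one_le_div hVpos]
      exact hbad.2.le
    · intro V hV1 hV2 hgood
      have hVN : V ≤ N := by omega
      have hVτ : (V : ℝ) ≤ τ := le_trans (by exact_mod_cast hVN) hNτ
      have hV0 : (0 : ℝ) < V := by
        have : 0 < V := by omega
        exact_mod_cast this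
      have h3 := lvl D hT hδ hδ4 ht1 ht2 hV1 (by rw [← hτd]; exact hVτ) (by rw [← hτd, ← hm]; exact hlτ3)
      rw [← hτd, ← hm] at h3
      refine h3.trans ?_
      unfold GG
      rw [Real.exp_le_exp]
      have h4 := hPA t V (by omega) hVτ
      have h27 : 0 ≤ 27 * B * m := by positivity
      rw [hGd] at hgood
      rcases hgood with hgood | hgood
      · have h5 := (hv (τ / V) δ y t (hl1 V (by omega) hVτ) hδ (by linarith) hy1).2.2
        obtain ⟨h6, h7⟩ := hDd V (by omega) hVτ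
        have h8 : Real.exp (τ / V) ≤ 9 := by
          refine le_trans (Real.exp_le_exp.2 ?_) he2
          rw [div_le_iff₀ hV0]
          have : (V : ℝ) = N := by rw [hgood]
          have h32 : (32 : ℝ) ≤ V := by exact_mod_cast hV1
          linarith
        have h9 : B * (1 + Dd (τ / V) δ) * Real.exp (τ / V) ≤ B * (3 * m) * 9 := by gcongr
        rw [hE]
        linarith
      · rw [hE]
        linarith
  · -- the integral
    have hint : ∀ j : ℕ, IntervalIntegrable (fun t : ℝ => GG k E τ δ (32 + j + 1) * Bf t (32 + j)) volume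
        (-(3 + T)) (3 + T) := fun j => (hcont j).intervalIntegrable _ _
    rw [intervalIntegral.integral_add (continuous_const.intervalIntegrable _ _)
      ((continuous_finsetSum _ fun j _ => hcont j).intervalIntegrable _ _), intervalIntegral.integral_const,
      intervalIntegral.integral_finsetSum fun j _ => hint j]
    simp_rw [intervalIntegral.integral_const_mul]
    obtain ⟨Y, hY⟩ : ∃ Y, Y = P * m ^ 4 := ⟨_, rfl⟩
    have hm1 : 1 ≤ m := by linarith
    have hP0 : 0 < P := by linarith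
    have y1 : m ≤ Y := by
      rw [hY]
      calc m = 1 * m ^ 1 := by ring
        _ ≤ P * m ^ 4 := mul_le_mul hP1 (pow_le_pow_right₀ hm1 (by norm_num)) (by positivity) hP0.le
    have y2 : m ^ 2 ≤ Y := by
      rw [hY]
      calc m ^ 2 = 1 * m ^ 2 := by ring
        _ ≤ P * m ^ 4 := mul_le_mul hP1 (pow_le_pow_right₀ hm1 (by norm_num)) (by positivity) hP0.le
    have y3 : m * P ≤ Y := by
      rw [hY]
      calc m * P = P * m ^ 1 := by ring
        _ ≤ P * m ^ 4 := mul_le_mul_of_nonneg_left (pow_le_pow_right₀ hm1 (by norm_num)) hP0.le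
    have y4 : 1 ≤ Y := by linarith
    have hEY : E ≤ ((k + 5) * C + 30 * B) * Y := by
      rw [hE]
      have e1 : (k + 5) * C * m ≤ (k + 5) * C * Y := by gcongr
      have e2 : 3 * B * m * P ≤ 3 * B * Y := by
        calc 3 * B * m * P = 3 * B * (m * P) := by ring
          _ ≤ _ := by gcongr
      have e3 : 27 * B * m ≤ 27 * B * Y := by gcongr
      linarith
    have hfirst : GG k E τ δ 32 ≤ Real.exp (64 * k * m + 32 + E) := by
      unfold GG
      rw [Real.exp_le_exp]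
      have hlog : Real.log (1 + ((32 : ℕ) : ℝ) / (τ * δ)) ≤ 2 * m := by
        have h3 := Dd_le (hl1 32 (by norm_num) (by push_cast; linarith)) hδ hδ4
        rw [← hm] at h3
        refine le_trans (le_of_eq ?_) h3
        unfold Pool.Agent.N964.MX.Dd
        congr 2
        field_simp
      have h7 : (k : ℝ) * ((32 : ℕ) : ℝ) * Real.log (1 + ((32 : ℕ) : ℝ) / (τ * δ)) ≤ 64 * k * m := by
        calc (k : ℝ) * ((32 : ℕ) : ℝ) * Real.log (1 + ((32 : ℕ) : ℝ) / (τ * δ)) ≤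
              (k : ℝ) * ((32 : ℕ) : ℝ) * (2 * m) := by gcongr
          _ = 64 * k * m := by push_cast; ring
      have h8 : ((32 : ℕ) : ℝ) = 32 := by norm_num
      rw [h8] at h7 ⊢
      linarith
    have hj : ∀ j ∈ Finset.range n, GG k E τ δ (32 + j + 1) * ∫ t in (-(3 + T))..(3 + T), Bf t (32 + j) ≤
        C * (3 + T) * Real.exp (E + C2 * m ^ 2) := by
      intro j hj
      rw [Finset.mem_range] at hj
      obtain ⟨V, hV⟩ : ∃ V, V = 32 + j := ⟨_, rfl⟩
      rw [← hV]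
      have hv1 : 1 ≤ V := by omega
      have hvN : V ≤ N := by omega
      have hVτ : (V : ℝ) ≤ τ := le_trans (by exact_mod_cast hvN) hNτ
      have h3 := int_term D hB (fun l δ y e1 e2 e3 e4 => (hv l δ y 0 e1 e2 e3 e4).1) (T := T)
        (by linarith) hδ hδ4 hy1 hv1 (by rw [← hτd]; exact hVτ)
      rw [← hτd] at h3
      have h4 := hn δ τ y V hδ hδ1 hv1 hVτ hy1 hy2
      rw [← hm] at h3 h4
      have h5 : GG k E τ δ (V + 1) = Real.exp (k * ((V : ℝ) + 1) * Real.log (1 + ((V : ℝ) + 1) / (τ * δ)) +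
          ((V : ℝ) + 1)) * Real.exp E := by
        unfold GG
        rw [← Real.exp_add]
        push_cast
        rfl
      rw [h5, hBf]
      have hyk : 0 ≤ y ^ (-(2 * κ)) := Real.rpow_nonneg (by linarith) _
      calc _ ≤ Real.exp (k * ((V : ℝ) + 1) * Real.log (1 + ((V : ℝ) + 1) / (τ * δ)) + ((V : ℝ) + 1)) *
            Real.exp E * (C * (3 + T) * (9 * B * m ^ 2 * y ^ (-(2 * κ)) / V) ^ V) :=
              mul_le_mul_of_nonneg_left h3 (by positivity)
        _ = C * (3 + T) * Real.exp E * (Real.exp (k * ((V : ℝ) + 1) *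
            Real.log (1 + ((V : ℝ) + 1) / (τ * δ)) + ((V : ℝ) + 1)) *
            (9 * B * m ^ 2 * y ^ (-(2 * κ)) / V) ^ V) := by ring
        _ ≤ C * (3 + T) * Real.exp E * Real.exp (C2 * m ^ 2) := by
            refine mul_le_mul_of_nonneg_left h4 ?_
            have : 0 ≤ 3 + T := by linarith
            positivity
        _ = _ := by rw [mul_assoc, ← Real.exp_add]
    have hsum := Finset.sum_le_sum hj
    rw [Finset.sum_const, Finset.card_range, nsmul_eq_mul] at hsum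
    have hnτ : (n : ℝ) ≤ Real.exp ((k + 2) * m) := by
      have : n ≤ N := by omega
      have h4 : (n : ℝ) ≤ N := by exact_mod_cast this
      linarith
    have h3T : 3 + T ≤ 2 * T := by linarith
    have hT0 : 0 < T := by linarith
    have hCe : 2 * C ≤ Real.exp (2 * C) := by
      have h5 := Real.add_one_le_exp (2 * C)
      linarith
    have p1 : (3 + T - -(3 + T)) • GG k E τ δ 32 ≤ T * Real.exp ((K - 1) * Y) := by
      rw [smul_eq_mul]
      have h6 : 3 + T - -(3 + T) ≤ 4 * T := by linarith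
      calc (3 + T - -(3 + T)) * GG k E τ δ 32 ≤ (4 * T) * Real.exp (64 * k * m + 32 + E) :=
            mul_le_mul h6 hfirst (hGG0 _) (by positivity)
        _ = T * (4 * Real.exp (64 * k * m + 32 + E)) := by ring
        _ ≤ T * (Real.exp 2 * Real.exp (64 * k * m + 32 + E)) := by gcongr
        _ = T * Real.exp (2 + (64 * k * m + 32 + E)) := by rw [← Real.exp_add]
        _ ≤ T * Real.exp ((K - 1) * Y) := by
            refine mul_le_mul_of_nonneg_left (Real.exp_le_exp.2 ?_) hT0.le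
            have e1 : 64 * k * m ≤ 64 * k * Y := by gcongr
            have e2 : 0 ≤ (2 * C + (k + 2) + C2) * Y := by positivity
            rw [hK]
            linarith
    have p2 : (n : ℝ) * (C * (3 + T) * Real.exp (E + C2 * m ^ 2)) ≤ T * Real.exp ((K - 1) * Y) := by
      calc (n : ℝ) * (C * (3 + T) * Real.exp (E + C2 * m ^ 2)) ≤
          Real.exp ((k + 2) * m) * (C * (2 * T) * Real.exp (E + C2 * m ^ 2)) := by gcongr
        _ = T * (2 * C * (Real.exp ((k + 2) * m) * Real.exp (E + C2 * m ^ 2))) := by ring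
        _ ≤ T * (Real.exp (2 * C) * (Real.exp ((k + 2) * m) * Real.exp (E + C2 * m ^ 2))) := by gcongr
        _ = T * Real.exp (2 * C + ((k + 2) * m + (E + C2 * m ^ 2))) := by
            rw [← Real.exp_add, ← Real.exp_add]
        _ ≤ T * Real.exp ((K - 1) * Y) := by
            refine mul_le_mul_of_nonneg_left (Real.exp_le_exp.2 ?_) hT0.le
            have e1 : (k + 2) * m ≤ (k + 2) * Y := by gcongr
            have e2 : C2 * m ^ 2 ≤ C2 * Y := by gcongr
            have e3 : 2 * C ≤ 2 * C * Y := le_mul_of_one_le_right (by positivity) y4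
            have e4 : 0 ≤ (64 * k + 34) * Y := by positivity
            rw [hK]
            linarith
    have p3 : 2 * Real.exp ((K - 1) * Y) ≤ Real.exp (K * Y) := by
      have r3 : Real.exp (K * Y) = Real.exp Y * Real.exp ((K - 1) * Y) := by
        rw [← Real.exp_add]; congr 1; ring
      have r4 : 2 ≤ Real.exp Y := by
        have := Real.add_one_le_exp Y
        linarith
      rw [r3]
      gcongr
    rw [← hY]
    calc _ ≤ T * Real.exp ((K - 1) * Y) + T * Real.exp ((K - 1) * Y) := add_le_add p1 (hsum.trans p2)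
      _ = T * (2 * Real.exp ((K - 1) * Y)) := by ring
      _ ≤ _ := by gcongr

end Pool.Agent.N645.GV
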